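import Pool.Agent.U603.Mix.Step

/-!
# Every mixing system has a set with `μ (A ∩ T^n A) > μ(A)^2` for all `n ≠ 0`
-/

set_option autoImplicit false

open MeasureTheory Set Filter Topology

namespace Pool.Agent.U603.Mix

/-- dependent sequences -/
lemma exists_dep_seq {α : Type*} (P : ℕ → α → Prop) (Q : ℕ → α → α → Prop)
    (h0 : ∃ a, P 0 a) (hs : ∀ n a, P n a → ∃ b, P (n + 1) b ∧ Q n a b) :
    ∃ f : ℕ → α, ∀ n, P n (f n) ∧ Q n (f n) (f (n + 1)) := by
  classical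
  obtain ⟨a0, ha0⟩ := h0
  choose! g hg using hs
  let f : ℕ → α := fun n => Nat.rec a0 (fun n a => g n a) n
  have hP : ∀ n, P n (f n) := by
    intro n
    induction n with
    | zero => exact ha0
    | succ n ih => exact (hg n (f n) ih).1
  exact ⟨f, fun n => ⟨hP n, (hg n (f n) (hP n)).2⟩⟩

variable {X : Type*} [MeasurableSpace X] {μ : Measure X} {S : X → X}

theorem over_independent [IsProbabilityMeasure μ] (hS : MeasurePreserving S μ μ)
    (hmix : ∀ A B, MeasurableSet A → MeasurableSet B →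
      Tendsto (fun n : ℕ => μ.real (A ∩ S^[n] ⁻¹' B)) atTop (𝓝 (μ.real A * μ.real B)))
    (hsmall : ∀ δ : ℝ, 0 < δ → ∃ E, MeasurableSet E ∧ 0 < μ.real E ∧ μ.real E ≤ δ)
    (K : ℕ) (hK : 512 ≤ K) :
    ∃ A, MeasurableSet A ∧ 0 < μ.real A ∧ μ.real A ≤ 4 / K ∧
      ∀ n : ℕ, μ.real A ^ 2 < μ.real (A ∩ S^[n] ⁻¹' A) := by
  have hK' : (512 : ℝ) ≤ K := by exact_mod_cast hK
  have hK0 : (0 : ℝ) < K := by linarith
  let R : ℕ → ℕ := fun j => K * 2 ^ j
  have hRpos : ∀ j, (0 : ℝ) < R j := by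
    intro j
    have : 0 < R j := Nat.mul_pos (by omega) (by positivity)
    exact_mod_cast this
  have hR1 : ∀ j, 1 ≤ R j := fun j => by
    have : 0 < R j := Nat.mul_pos (by omega) (by positivity)
    exact this
  have hRs : ∀ j, (R (j + 1) : ℝ) = 2 * R j := by
    intro j; simp only [R]; push_cast; ring
  have hR0 : (R 0 : ℝ) = K := by simp [R]
  let P : ℕ → Set X × ℕ → Prop := fun j σ => MeasurableSet σ.1 ∧
    μ.real σ.1 + 4 / R (j + 1) ≤ 4 / K ∧
    ∀ n, σ.2 ≤ n → μ.real σ.1 ^ 2 - 1 / (16 * R (j + 1)) ≤ μ.real (σ.1 ∩ S^[n] ⁻¹' σ.1)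
  let Q : ℕ → Set X × ℕ → Set X × ℕ → Prop := fun j σ τ => ∃ C, MeasurableSet C ∧
    τ.1 = σ.1 ∪ C ∧ μ.real C ≤ 2 / R (j + 1) ∧
    (∀ n ≤ σ.2, 1 / (2 * R (j + 1)) ≤ μ.real ((C ∩ S^[n] ⁻¹' C) \ σ.1)) ∧ σ.2 < τ.2
  have hmix2 : ∀ (D : Set X), MeasurableSet D → ∀ ε : ℝ, 0 < ε → ∀ M : ℕ, ∃ M', M < M' ∧
      ∀ n, M' ≤ n → μ.real D ^ 2 - ε ≤ μ.real (D ∩ S^[n] ⁻¹' D) := by
    intro D hD ε hε M
    have h1 := hmix D D hD hD
    rw [← sq] at h1
    have h2 : ∀ᶠ n in atTop, μ.real D ^ 2 - ε < μ.real (D ∩ S^[n] ⁻¹' D) :=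
      h1.eventually (lt_mem_nhds (by linarith))
    obtain ⟨N, hN⟩ := eventually_atTop.1 h2
    exact ⟨max N (M + 1), by omega, fun n hn => (hN n (by omega)).le⟩
  have h0 : ∃ σ, P 0 σ := by
    obtain ⟨C0, hC0, hC1, -⟩ := step hS hmix hsmall (R 0) 0 (hR1 0) MeasurableSet.empty (by simp)
    obtain ⟨M, -, hM⟩ := hmix2 C0 hC0 (1 / (16 * R (0 + 1))) (by have := hRpos (0 + 1); positivity) 0
    refine ⟨(C0, M), hC0, ?_, fun n hn => hM n hn⟩
    rw [hRs 0, hR0]
    rw [hR0] at hC1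
    have : (4 : ℝ) / (2 * K) = 2 / K := by field_simp; norm_num
    rw [this]
    have h3 : (4 : ℝ) / K = 2 / K + 2 / K := by ring
    show μ.real C0 + 2 / K ≤ 4 / K
    linarith
  have hs : ∀ j σ, P j σ → ∃ τ, P (j + 1) τ ∧ Q j σ τ := by
    rintro j ⟨D, M⟩ ⟨hD, hDs, hDM⟩
    simp only at hD hDs hDM
    have h4 : 0 < 4 / (R (j + 1) : ℝ) := by have := hRpos (j + 1); positivity
    have hD8 : μ.real D ≤ 1 / 8 := by
      have : 4 / (K : ℝ) ≤ 1 / 8 := by rw [div_le_div_iff₀ hK0 (by norm_num)]; linarith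
      linarith
    obtain ⟨C0, hC0, hC1, hC2⟩ := step hS hmix hsmall (R (j + 1)) M (hR1 _) hD hD8
    obtain ⟨M', hM', hM''⟩ := hmix2 (D ∪ C0) (hD.union hC0) (1 / (16 * R (j + 1 + 1)))
      (by have := hRpos (j + 1 + 1); positivity) M
    refine ⟨(D ∪ C0, M'), ⟨hD.union hC0, ?_, fun n hn => hM'' n hn⟩, C0, hC0, rfl, hC1, hC2, hM'⟩
    have h5 := measureReal_union_le (μ := μ) D C0
    have h6 : 4 / (R (j + 1 + 1) : ℝ) = 2 / R (j + 1) := by
      rw [hRs (j + 1)]; have := hRpos (j + 1); field_simp; norm_num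
    have h7 : 4 / (R (j + 1) : ℝ) = 2 / R (j + 1) + 2 / R (j + 1) := by ring
    show μ.real (D ∪ C0) + 4 / (R (j + 1 + 1) : ℝ) ≤ 4 / K
    linarith
  obtain ⟨f, hf⟩ := exists_dep_seq P Q h0 hs
  set A : Set X := ⋃ j, (f j).1 with hA
  have hmono : Monotone fun j => (f j).1 := by
    refine monotone_nat_of_le_succ fun j => ?_
    obtain ⟨C0, -, h, -⟩ := (hf j).2
    rw [h]; exact subset_union_left
  have hAm : MeasurableSet A := MeasurableSet.iUnion fun j => (hf j).1.1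
  have hMlt : ∀ j, j ≤ (f j).2 := by
    intro j
    induction j with
    | zero => exact Nat.zero_le _
    | succ j ih =>
      obtain ⟨C0, -, -, -, -, h⟩ := (hf j).2
      omega
  -- the potential
  have hg : Antitone fun k => μ.real (f k).1 + 4 / (R (k + 1) : ℝ) := by
    refine antitone_nat_of_succ_le fun j => ?_
    obtain ⟨C0, -, h, hC1, -⟩ := (hf j).2
    have h5 := measureReal_union_le (μ := μ) (f j).1 C0
    rw [← h] at h5
    have h6 : 4 / (R (j + 1 + 1) : ℝ) = 2 / R (j + 1) := by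
      rw [hRs (j + 1)]; have := hRpos (j + 1); field_simp; norm_num
    have h7 : 4 / (R (j + 1) : ℝ) = 2 / R (j + 1) + 2 / R (j + 1) := by ring
    show μ.real (f (j + 1)).1 + 4 / (R (j + 1 + 1) : ℝ) ≤ μ.real (f j).1 + 4 / (R (j + 1) : ℝ)
    linarith
  have htend : Tendsto (fun j => μ.real (f j).1) atTop (𝓝 (μ.real A)) := by
    have := tendsto_measure_iUnion_atTop (μ := μ) hmono
    exact (ENNReal.tendsto_toReal (measure_ne_top _ _)).comp this
  have hAle : ∀ j, μ.real A ≤ μ.real (f j).1 + 4 / (R (j + 1) : ℝ) := by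
    intro j
    refine le_of_tendsto htend ?_
    filter_upwards [eventually_ge_atTop j] with k hk
    have h1 := hg hk
    have h2 : 0 < 4 / (R (k + 1) : ℝ) := by have := hRpos (k + 1); positivity
    simp only at h1
    linarith
  have hAK : μ.real A ≤ 4 / K := (hAle 0).trans (hf 0).1.2.1
  have hmain : ∀ n : ℕ, μ.real A ^ 2 < μ.real (A ∩ S^[n] ⁻¹' A) := by
    intro n
    have hex : ∃ j, n ≤ (f j).2 := ⟨n, hMlt n⟩
    classical
    obtain ⟨j, hj, hjmin⟩ : ∃ j, n ≤ (f j).2 ∧ ∀ i < j, (f i).2 < n :=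
      ⟨Nat.find hex, Nat.find_spec hex, fun i hi => not_le.1 (Nat.find_min hex hi)⟩
    obtain ⟨C0, hC0m, hC, hC1, hC2, -⟩ := (hf j).2
    have hCsub : C0 ⊆ A := by
      have : C0 ⊆ (f (j + 1)).1 := by rw [hC]; exact subset_union_right
      exact this.trans (subset_iUnion (fun j => (f j).1) (j + 1))
    have hlow := hC2 n hj
    rw [hRs j] at hlow
    rcases j with _ | i
    · have h1 : μ.real ((C0 ∩ S^[n] ⁻¹' C0) \ (f 0).1) ≤ μ.real (A ∩ S^[n] ⁻¹' A) := by
        refine measureReal_mono ?_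
        rintro x ⟨⟨hx1, hx2⟩, -⟩
        exact ⟨hCsub hx1, hCsub hx2⟩
      rw [hR0] at hlow
      have h2 : μ.real A ^ 2 ≤ (4 / K) ^ 2 := by
        apply pow_le_pow_left₀ measureReal_nonneg hAK
      have h3 : (4 / (K : ℝ)) ^ 2 < 1 / (2 * (2 * K)) := by
        rw [div_pow, div_lt_div_iff₀ (by positivity) (by positivity)]
        nlinarith
      linarith
    · have hi : (f i).2 ≤ n := (hjmin i (by omega)).le
      have hP := (hf i).1
      have h1 := hP.2.2 n hi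
      have hD1 : (f i).1 ⊆ (f (i + 1)).1 := hmono (Nat.le_succ i)
      have hDA : (f i).1 ⊆ A := subset_iUnion (fun j => (f j).1) i
      have h2 : μ.real ((f i).1 ∩ S^[n] ⁻¹' (f i).1) +
          μ.real ((C0 ∩ S^[n] ⁻¹' C0) \ (f (i + 1)).1) ≤ μ.real (A ∩ S^[n] ⁻¹' A) := by
        rw [← measureReal_union]
        · refine measureReal_mono (h₂ := measure_ne_top _ _) ?_
          rintro x (⟨hx1, hx2⟩ | ⟨⟨hx1, hx2⟩, -⟩)
          · exact ⟨hDA hx1, hDA hx2⟩
          · exact ⟨hCsub hx1, hCsub hx2⟩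
        · rw [Set.disjoint_left]
          rintro x ⟨hx1, -⟩ ⟨-, hx2⟩
          exact hx2 (hD1 hx1)
        · exact (hC0m.inter (hS.measurable.iterate n hC0m)).diff (hf (i + 1)).1.1
      set d := μ.real (f i).1 with hd
      have hd0 : 0 ≤ d := measureReal_nonneg
      have hdK := hP.2.1
      rw [← hd] at hdK
      have hA1 := hAle i
      rw [← hd] at hA1
      set r : ℝ := ((R (i + 1) : ℕ) : ℝ) with hr
      have hr0 : 0 < r := hRpos (i + 1)
      have h3 : μ.real A ^ 2 ≤ (d + 4 / r) ^ 2 := pow_le_pow_left₀ measureReal_nonneg hA1 2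
      have h4 : (d + 4 / r) ^ 2 ≤ d ^ 2 + (4 / r) * (8 / K) := by
        have h5 : (d + 4 / r) ^ 2 = d ^ 2 + (4 / r) * (2 * d + 4 / r) := by ring
        rw [h5]
        have h6 : 0 ≤ 4 / r := by positivity
        have h7 : 2 * d + 4 / r ≤ 8 / K := by
          have : (8 : ℝ) / K = 2 * (4 / K) := by ring
          rw [this]; linarith
        have := mul_le_mul_of_nonneg_left h7 h6
        linarith
      have h8 : (4 / r) * (8 / K) ≤ 1 / (16 * r) := by
        rw [div_mul_div_comm, div_le_div_iff₀ (by positivity) (by positivity)]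
        nlinarith
      have h9 : 1 / (2 * (2 * r)) = 4 * (1 / (16 * r)) := by field_simp; norm_num
      have h10 : 0 < 1 / (16 * r) := by positivity
      rw [h9] at hlow
      linarith
  refine ⟨A, hAm, ?_, hAK, hmain⟩
  have h1 := hmain 0
  have h2 : 0 ≤ μ.real A ^ 2 := by positivity
  have h3 : μ.real (A ∩ S^[0] ⁻¹' A) ≤ μ.real A := measureReal_mono inter_subset_left
  linarith

end Pool.Agent.U603.Mix
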