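import Mathlib

/-!
# Almost invariant sets of prescribed measure in a mixing system
-/

set_option autoImplicit false

open MeasureTheory Set Filter Topology

namespace Pool.Agent.U603.Mix

variable {X : Type*} [MeasurableSpace X] {μ : Measure X} {S : X → X}

/-- the points whose first entrance to `E` is at time `k` -/
def F (S : X → X) (E : Set X) (k : ℕ) : Set X := {x | S^[k] x ∈ E ∧ ∀ i < k, S^[i] x ∉ E}

/-- the points whose first entrance time is `j` modulo `L` -/
def G (S : X → X) (E : Set X) (L j : ℕ) : Set X := {x | ∃ k, x ∈ F S E k ∧ k % L = j}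

lemma measurableSet_F (hS : Measurable S) {E : Set X} (hE : MeasurableSet E) (k : ℕ) :
    MeasurableSet (F S E k) := by
  have : F S E k = S^[k] ⁻¹' E ∩ ⋂ i ∈ Finset.range k, (S^[i] ⁻¹' E)ᶜ := by
    ext x; simp [F]
  rw [this]
  refine (hS.iterate k hE).inter (Finset.measurableSet_biInter _ fun i _ => ?_)
  exact (hS.iterate i hE).compl

lemma measurableSet_G (hS : Measurable S) {E : Set X} (hE : MeasurableSet E) (L j : ℕ) :
    MeasurableSet (G S E L j) := by
  have : G S E L j = ⋃ k ∈ {k : ℕ | k % L = j}, F S E k := by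
    ext x; simp [G, and_comm]
  rw [this]
  exact MeasurableSet.biUnion (Set.to_countable _) fun k _ => measurableSet_F hS hE k

lemma F_unique {E : Set X} {k l : ℕ} {x : X} (hk : x ∈ F S E k) (hl : x ∈ F S E l) : k = l := by
  rcases lt_trichotomy k l with h | h | h
  · exact absurd hk.1 (hl.2 k h)
  · exact h
  · exact absurd hl.1 (hk.2 l h)

lemma F_succ {E : Set X} {k : ℕ} {x : X} (hk : x ∈ F S E (k + 1)) : S x ∈ F S E k := by
  refine ⟨?_, fun i hi => ?_⟩
  · have := hk.1
    rwa [Function.iterate_succ_apply] at this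
  · have := hk.2 (i + 1) (by omega)
    rwa [Function.iterate_succ_apply] at this

lemma F_add {E : Set X} (n : ℕ) {k : ℕ} {x : X} (hk : x ∈ F S E (k + n)) :
    S^[n] x ∈ F S E k := by
  induction n generalizing x with
  | zero => simpa using hk
  | succ n ih =>
    rw [Function.iterate_succ_apply]
    exact ih (F_succ (by rwa [add_assoc]))

lemma G_disjoint {E : Set X} {L i j : ℕ} (hij : i ≠ j) : Disjoint (G S E L i) (G S E L j) := by
  rw [Set.disjoint_left]
  rintro x ⟨k, hk, hki⟩ ⟨l, hl, hlj⟩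
  exact hij (by rw [← hki, ← hlj, F_unique hk hl])

lemma G_succ_subset {E : Set X} {L j : ℕ} (hj : j + 1 < L) : G S E L (j + 1) ⊆ S ⁻¹' G S E L j := by
  rintro x ⟨k, hk, hkj⟩
  rcases k with _ | k
  · simp at hkj
  · refine ⟨k, F_succ hk, ?_⟩
    have h1 : (k + 1) % L = j + 1 := hkj
    have h2 : k % L < L := Nat.mod_lt _ (by omega)
    have h3 : (k + 1) % L = (k % L + 1) % L := by rw [Nat.add_mod, Nat.mod_eq_of_lt (show 1 < L by omega)]
    rw [h3] at h1
    rcases Nat.lt_or_ge (k % L + 1) L with h | h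
    · rw [Nat.mod_eq_of_lt h] at h1; omega
    · have : k % L + 1 = L := by omega
      rw [this, Nat.mod_self] at h1; omega

lemma G_zero_subset {E : Set X} {L : ℕ} (hL : 1 ≤ L) :
    G S E L 0 ⊆ E ∪ S ⁻¹' G S E L (L - 1) := by
  rintro x ⟨k, hk, hkj⟩
  rcases k with _ | k
  · left; simpa using hk.1
  · right
    refine ⟨k, F_succ hk, ?_⟩
    have h2 : k % L < L := Nat.mod_lt _ (by omega)
    have h1 : (k % L + 1) % L = 0 := by
      have := Nat.add_mod k 1 L
      rw [hkj] at this
      rcases Nat.lt_or_ge 1 L with h | h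
      · rw [Nat.mod_eq_of_lt h] at this; exact this.symm
      · have hL1 : L = 1 := by omega
        subst hL1; simp [Nat.mod_one]
    rcases Nat.lt_or_ge (k % L + 1) L with h | h
    · rw [Nat.mod_eq_of_lt h] at h1; omega
    · omega

/-- the hitting set has full measure in a mixing system -/
lemma full [IsProbabilityMeasure μ] (hS : MeasurePreserving S μ μ)
    (hmix : ∀ A B, MeasurableSet A → MeasurableSet B →
      Tendsto (fun n : ℕ => μ.real (A ∩ S^[n] ⁻¹' B)) atTop (𝓝 (μ.real A * μ.real B)))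
    {E : Set X} (hE : MeasurableSet E) (hE0 : 0 < μ.real E) {L : ℕ} (hL : 1 ≤ L) :
    μ.real (⋃ j ∈ Finset.range L, G S E L j) = 1 := by
  set Z : Set X := ⋂ k : ℕ, (S^[k] ⁻¹' E)ᶜ with hZ
  have hZm : MeasurableSet Z :=
    MeasurableSet.iInter fun k => (hS.measurable.iterate k hE).compl
  have hZ0 : μ.real Z = 0 := by
    have h1 := hmix Z E hZm hE
    have h2 : (fun n : ℕ => μ.real (Z ∩ S^[n] ⁻¹' E)) = fun _ => 0 := by
      funext n
      have : Z ∩ S^[n] ⁻¹' E = ∅ := by
        ext x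
        simp only [hZ, mem_inter_iff, mem_iInter, mem_compl_iff, mem_preimage, mem_empty_iff_false,
          iff_false, not_and]
        intro h h'
        exact h n h'
      rw [this]; simp
    rw [h2] at h1
    have h3 := tendsto_nhds_unique tendsto_const_nhds h1
    rcases mul_eq_zero.1 h3.symm with h | h
    · exact h
    · exact absurd h hE0.ne'
  have hc : Z = (⋃ j ∈ Finset.range L, G S E L j)ᶜ := by
    classical
    ext x
    simp only [hZ, mem_iInter, mem_compl_iff, mem_preimage, mem_iUnion, Finset.mem_range,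
      exists_prop, not_exists, not_and]
    constructor
    · rintro h j hj ⟨k, hk, _⟩
      exact h k hk.1
    · intro h k hk
      have hex : ∃ k, S^[k] x ∈ E := ⟨k, hk⟩
      refine h (Nat.find hex % L) (Nat.mod_lt _ (by omega)) ⟨Nat.find hex, ⟨Nat.find_spec hex, ?_⟩, rfl⟩
      intro i hi
      exact Nat.find_min hex hi
  have hm : MeasurableSet (⋃ j ∈ Finset.range L, G S E L j) :=
    Finset.measurableSet_biUnion _ fun j _ => measurableSet_G hS.measurable hE L j
  rw [hc, probReal_compl_eq_one_sub hm] at hZ0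
  linarith

lemma sum_G [IsProbabilityMeasure μ] (hS : MeasurePreserving S μ μ)
    (hmix : ∀ A B, MeasurableSet A → MeasurableSet B →
      Tendsto (fun n : ℕ => μ.real (A ∩ S^[n] ⁻¹' B)) atTop (𝓝 (μ.real A * μ.real B)))
    {E : Set X} (hE : MeasurableSet E) (hE0 : 0 < μ.real E) {L : ℕ} (hL : 1 ≤ L) :
    ∑ j ∈ Finset.range L, μ.real (G S E L j) = 1 := by
  rw [← full hS hmix hE hE0 hL]
  rw [measureReal_biUnion_finset]
  · intro i _ j _ hij
    exact G_disjoint hij
  · intro j _
    exact measurableSet_G hS.measurable hE L j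

lemma G_bounds [IsProbabilityMeasure μ] (hS : MeasurePreserving S μ μ)
    (hmix : ∀ A B, MeasurableSet A → MeasurableSet B →
      Tendsto (fun n : ℕ => μ.real (A ∩ S^[n] ⁻¹' B)) atTop (𝓝 (μ.real A * μ.real B)))
    {E : Set X} (hE : MeasurableSet E) (hE0 : 0 < μ.real E) {L : ℕ} (hL : 1 ≤ L) {j : ℕ}
    (hj : j < L) :
    1 / (L : ℝ) - μ.real E ≤ μ.real (G S E L j) ∧ μ.real (G S E L j) ≤ 1 / (L : ℝ) + μ.real E := by
  set p : ℕ → ℝ := fun j => μ.real (G S E L j) with hp
  have hstep : ∀ i, i + 1 < L → p (i + 1) ≤ p i := by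
    intro i hi
    have h1 : μ.real (G S E L (i + 1)) ≤ μ.real (S ⁻¹' G S E L i) :=
      measureReal_mono (G_succ_subset hi)
    rwa [hS.measureReal_preimage (measurableSet_G hS.measurable hE L i).nullMeasurableSet] at h1
  have hanti : ∀ i k, i ≤ k → k < L → p k ≤ p i := by
    intro i k hik
    induction k, hik using Nat.le_induction with
    | base => intro _; exact le_rfl
    | succ k hk ih =>
      intro hkL
      exact (hstep k hkL).trans (ih (by omega))
  have h0 : p 0 ≤ μ.real E + p (L - 1) := by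
    have h1 : μ.real (G S E L 0) ≤ μ.real (E ∪ S ⁻¹' G S E L (L - 1)) :=
      measureReal_mono (G_zero_subset hL)
    have h2 := measureReal_union_le (μ := μ) E (S ⁻¹' G S E L (L - 1))
    rw [hS.measureReal_preimage (measurableSet_G hS.measurable hE L _).nullMeasurableSet] at h2
    exact h1.trans h2
  have hcmp : ∀ i < L, ∀ k < L, p i ≤ p k + μ.real E := by
    intro i hi k hk
    have h1 := hanti 0 i (by omega) hi
    have h2 := hanti k (L - 1) (by omega) (by omega)
    linarith
  have hsum := sum_G hS hmix hE hE0 hL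
  have hL0 : (0 : ℝ) < L := by exact_mod_cast hL
  constructor
  · have h1 : ∑ i ∈ Finset.range L, p i ≤ ∑ _i ∈ Finset.range L, (p j + μ.real E) :=
      Finset.sum_le_sum fun i hi => hcmp i (Finset.mem_range.1 hi) j hj
    rw [hsum, Finset.sum_const, Finset.card_range, nsmul_eq_mul] at h1
    have : 1 / (L : ℝ) ≤ p j + μ.real E := by
      rw [div_le_iff₀ hL0]; linarith
    linarith
  · have h1 : ∑ _i ∈ Finset.range L, (p j - μ.real E) ≤ ∑ i ∈ Finset.range L, p i :=
      Finset.sum_le_sum fun i hi => by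
        have := hcmp j hj i (Finset.mem_range.1 hi); linarith
    rw [hsum, Finset.sum_const, Finset.card_range, nsmul_eq_mul] at h1
    have : p j - μ.real E ≤ 1 / (L : ℝ) := by
      rw [le_div_iff₀ hL0]; linarith
    linarith

/-- the slice -/
def C (S : X → X) (E : Set X) (L w s : ℕ) : Set X :=
  ⋃ j ∈ Finset.Ico (s * w) (s * w + w), G S E L j

lemma measurableSet_C (hS : Measurable S) {E : Set X} (hE : MeasurableSet E) (L w s : ℕ) :
    MeasurableSet (C S E L w s) :=
  Finset.measurableSet_biUnion _ fun j _ => measurableSet_G hS hE L j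

lemma C_diff {E : Set X} {L w s n : ℕ} (hL : 0 < L) (hn : n ≤ w) :
    C S E L w s \ S^[n] ⁻¹' C S E L w s ⊆
      (⋃ i ∈ Finset.range n, S^[i] ⁻¹' E) ∪ ⋃ j ∈ Finset.Ico (s * w) (s * w + n), G S E L j := by
  rintro x ⟨hx, hx'⟩
  simp only [C, mem_iUnion, exists_prop, Finset.mem_Ico] at hx
  obtain ⟨j, ⟨hj1, hj2⟩, k, hk, hkj⟩ := hx
  rcases Nat.lt_or_ge k n with h | h
  · left
    simp only [mem_iUnion, exists_prop, Finset.mem_range]
    exact ⟨k, h, hk.1⟩
  · rcases Nat.lt_or_ge j (s * w + n) with h2 | h2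
    · right
      simp only [mem_iUnion, exists_prop, Finset.mem_Ico]
      exact ⟨j, ⟨hj1, h2⟩, k, hk, hkj⟩
    · exfalso
      apply hx'
      have hk' : x ∈ F S E ((k - n) + n) := by rwa [Nat.sub_add_cancel h]
      simp only [C, mem_preimage, mem_iUnion, exists_prop, Finset.mem_Ico]
      refine ⟨j - n, ⟨by omega, by omega⟩, k - n, F_add n hk', ?_⟩
      have h3 : k % L = j := hkj
      have h4 : n ≤ k % L := by omega
      conv_lhs => rw [← Nat.div_add_mod k L, h3]
      rw [Nat.add_sub_assoc (by omega), Nat.mul_add_mod]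
      apply Nat.mod_eq_of_lt
      have := Nat.mod_lt k hL
      omega


lemma C_disjoint {E : Set X} {L w s s' : ℕ} (h : s ≠ s') :
    Disjoint (C S E L w s) (C S E L w s') := by
  rw [Set.disjoint_left]
  intro x hx hx'
  simp only [C, mem_iUnion, exists_prop, Finset.mem_Ico] at hx hx'
  obtain ⟨j, ⟨hj1, hj2⟩, k, hk, hkj⟩ := hx
  obtain ⟨j', ⟨hj1', hj2'⟩, k', hk', hkj'⟩ := hx'
  have h1 := F_unique hk hk'
  subst h1
  have h2 : j = j' := by rw [← hkj, ← hkj']
  subst h2
  rcases lt_or_gt_of_ne h with h3 | h3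
  · have : (s + 1) * w ≤ s' * w := Nat.mul_le_mul_right w h3
    rw [Nat.succ_mul] at this
    omega
  · have : (s' + 1) * w ≤ s * w := Nat.mul_le_mul_right w h3
    rw [Nat.succ_mul] at this
    omega

/-- **Step lemma.** Almost invariant sets of measure about `1 / R`, almost disjoint from `D`. -/
theorem step [IsProbabilityMeasure μ] (hS : MeasurePreserving S μ μ)
    (hmix : ∀ A B, MeasurableSet A → MeasurableSet B →
      Tendsto (fun n : ℕ => μ.real (A ∩ S^[n] ⁻¹' B)) atTop (𝓝 (μ.real A * μ.real B)))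
    (hsmall : ∀ δ : ℝ, 0 < δ → ∃ E, MeasurableSet E ∧ 0 < μ.real E ∧ μ.real E ≤ δ)
    (R M : ℕ) (hR : 1 ≤ R) {D : Set X} (hDm : MeasurableSet D) (hD : μ.real D ≤ 1 / 8) :
    ∃ A, MeasurableSet A ∧ μ.real A ≤ 2 / R ∧
      ∀ n ≤ M, 1 / (2 * R) ≤ μ.real ((A ∩ S^[n] ⁻¹' A) \ D) := by
  obtain ⟨w, hw⟩ : ∃ w : ℕ, w = 8 * M + 1 := ⟨_, rfl⟩
  obtain ⟨L, hLdef⟩ : ∃ L : ℕ, L = R * w := ⟨_, rfl⟩
  have hwp : 1 ≤ w := by omega
  have hL : 1 ≤ L := by rw [hLdef]; exact Nat.mul_pos hR hwp
  have hR0 : (0 : ℝ) < R := by exact_mod_cast hR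
  have hw0 : (0 : ℝ) < w := by positivity
  have hwM : (w : ℝ) = 8 * M + 1 := by rw [hw]; push_cast; ring
  have hM0 : (0 : ℝ) ≤ M := by positivity
  obtain ⟨E, hEm, hE0, hE1⟩ := hsmall (1 / (8 * R * (w + 2 * M))) (by positivity)
  obtain ⟨δ, hδ⟩ : ∃ δ : ℝ, δ = μ.real E := ⟨_, rfl⟩
  have hδ0 : 0 < δ := hδ ▸ hE0
  rw [← hδ] at hE1
  have hLR : (L : ℝ) = R * w := by rw [hLdef]; push_cast; ring
  have hδ1 : (w + 2 * M) * δ ≤ 1 / (8 * R) := by
    have h1 : (0 : ℝ) < w + 2 * M := by positivity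
    calc (w + 2 * M) * δ ≤ (w + 2 * M) * (1 / (8 * R * (w + 2 * M))) :=
          mul_le_mul_of_nonneg_left hE1 h1.le
      _ = 1 / (8 * R) := by field_simp
  have hGb := fun j (hj : j < L) => G_bounds hS hmix hEm hE0 hL hj
  rw [← hδ] at hGb
  -- measure of the slices
  have hCsub : ∀ s < R, ∀ n ≤ w, ∀ j ∈ Finset.Ico (s * w) (s * w + n), j < L := by
    intro s hs n hn j hj
    rw [Finset.mem_Ico] at hj
    have h1 : (s + 1) * w ≤ R * w := Nat.mul_le_mul_right w hs
    rw [Nat.succ_mul] at h1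
    omega
  have hpart : ∀ s < R, ∀ n ≤ w,
      n * (1 / (L : ℝ) - δ) ≤ μ.real (⋃ j ∈ Finset.Ico (s * w) (s * w + n), G S E L j) ∧
      μ.real (⋃ j ∈ Finset.Ico (s * w) (s * w + n), G S E L j) ≤ n * (1 / (L : ℝ) + δ) := by
    intro s hs n hn
    rw [measureReal_biUnion_finset (fun i _ j _ hij => G_disjoint hij)
      (fun j _ => measurableSet_G hS.measurable hEm L j)]
    have hcard : (Finset.Ico (s * w) (s * w + n)).card = n := by simp
    constructor
    · have := Finset.card_nsmul_le_sum (Finset.Ico (s * w) (s * w + n))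
        (fun j => μ.real (G S E L j)) (1 / (L : ℝ) - δ)
        (fun j hj => (hGb j (hCsub s hs n hn j hj)).1)
      rwa [hcard, nsmul_eq_mul] at this
    · have := Finset.sum_le_card_nsmul (Finset.Ico (s * w) (s * w + n))
        (fun j => μ.real (G S E L j)) (1 / (L : ℝ) + δ)
        (fun j hj => (hGb j (hCsub s hs n hn j hj)).2)
      rwa [hcard, nsmul_eq_mul] at this
  -- pigeonhole
  have hpig : ∃ s < R, μ.real (C S E L w s ∩ D) ≤ 1 / (8 * R) := by
    by_contra hcon
    push Not at hcon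
    have h1 : ∑ s ∈ Finset.range R, μ.real (C S E L w s ∩ D) ≤ μ.real D := by
      rw [← measureReal_biUnion_finset]
      · refine measureReal_mono (h₂ := measure_ne_top _ _) ?_
        intro x hx
        simp only [mem_iUnion, mem_inter_iff] at hx
        obtain ⟨_, _, _, h⟩ := hx
        exact h
      · intro i _ j _ hij
        exact (C_disjoint hij).mono inter_subset_left inter_subset_left
      · intro s _
        exact (measurableSet_C hS.measurable hEm L w s).inter hDm
    have h2 : ∑ _s ∈ Finset.range R, (1 / (8 * (R : ℝ))) <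
        ∑ s ∈ Finset.range R, μ.real (C S E L w s ∩ D) := by
      apply Finset.sum_lt_sum_of_nonempty
      · exact ⟨0, Finset.mem_range.2 hR⟩
      · intro s hs
        exact hcon s (Finset.mem_range.1 hs)
    rw [Finset.sum_const, Finset.card_range, nsmul_eq_mul] at h2
    have h3 : (R : ℝ) * (1 / (8 * R)) = 1 / 8 := by field_simp
    rw [h3] at h2
    linarith
  obtain ⟨s, hs, hsD⟩ := hpig
  have hCb := hpart s hs w le_rfl
  have hwL : (w : ℝ) * (1 / L) = 1 / R := by rw [hLR]; field_simp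
  have hwδ : (w : ℝ) * δ ≤ 1 / (8 * R) - 2 * M * δ := by nlinarith
  have hR8 : 1 / (8 * (R : ℝ)) = (1 / R) / 8 := by field_simp
  have hR2 : 1 / (2 * (R : ℝ)) = (1 / R) / 2 := by field_simp
  have hR1 : 0 < 1 / (R : ℝ) := by positivity
  refine ⟨C S E L w s, measurableSet_C hS.measurable hEm L w s, ?_, ?_⟩
  · have h1 := hCb.2
    rw [mul_add, hwL] at h1
    have h2 : 2 / (R : ℝ) = 1 / R + 1 / R := by ring
    have h3 : 0 ≤ 2 * (M : ℝ) * δ := by positivity
    rw [h2]
    refine h1.trans ?_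
    rw [hR8] at hwδ
    linarith
  · intro n hn
    have hnw : n ≤ w := by omega
    have hd : μ.real (C S E L w s \ S^[n] ⁻¹' C S E L w s) ≤ n * δ + n * (1 / L + δ) := by
      refine (measureReal_mono (C_diff (by omega) hnw)).trans ?_
      refine (measureReal_union_le _ _).trans ?_
      refine add_le_add ?_ (hpart s hs n hnw).2
      refine (measureReal_biUnion_finset_le _ _).trans ?_
      have : ∀ i ∈ Finset.range n, μ.real (S^[i] ⁻¹' E) = δ := by
        intro i _
        rw [(hS.iterate i).measureReal_preimage hEm.nullMeasurableSet, ← hδ]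
      rw [Finset.sum_congr rfl this, Finset.sum_const, Finset.card_range, nsmul_eq_mul]
    have hnM : (n : ℝ) ≤ M := by exact_mod_cast hn
    have hd2 : (n : ℝ) * δ + n * (1 / L + δ) ≤ 2 * M * δ + 1 / (8 * R) := by
      have h1 : (n : ℝ) * (1 / L) ≤ 1 / (8 * R) := by
        rw [hLR, hwM, mul_one_div, div_le_div_iff₀ (by positivity) (by positivity)]
        nlinarith
      have h2 : (n : ℝ) * δ ≤ M * δ := mul_le_mul_of_nonneg_right hnM hδ0.le
      rw [mul_add]; linarith
    -- decomposition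
    have hsub : C S E L w s ⊆ ((C S E L w s ∩ S^[n] ⁻¹' C S E L w s) \ D) ∪
        ((C S E L w s \ S^[n] ⁻¹' C S E L w s) ∪ (C S E L w s ∩ D)) := by
      intro x hx
      by_cases h1 : x ∈ S^[n] ⁻¹' C S E L w s
      · by_cases h2 : x ∈ D
        · right; right; exact ⟨hx, h2⟩
        · left; exact ⟨⟨hx, h1⟩, h2⟩
      · right; left; exact ⟨hx, h1⟩
    have h5 := (measureReal_mono (μ := μ) hsub).trans ((measureReal_union_le _ _).trans
      (add_le_add le_rfl (measureReal_union_le _ _)))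
    have h6 := hCb.1
    rw [mul_sub, hwL] at h6
    have h7 : 1 / (R : ℝ) - w * δ ≤ μ.real (C S E L w s) := h6
    rw [hR8] at hwδ hd2 hsD
    rw [hR2]
    linarith

end Pool.Agent.U603.Mix
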